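import Mathlib

set_option autoImplicit false

namespace Pool.Agent.Results.MP_fdf3ca_an.Spaceable

open Filter Topology Metric Finset

/-- `limsup_{r → 1⁻} min_{|z| = r} |f z| = ∞`. -/
def StronglyAnnular (f : ℂ → ℂ) : Prop :=
  ∀ K : ℝ, ∀ ρ < (1 : ℝ), ∃ r, ρ < r ∧ r < 1 ∧ ∀ z : ℂ, ‖z‖ = r → K ≤ ‖f z‖

lemma pow_lo (j : ℕ) (hj : 1 ≤ j) : (1 / 4 : ℝ) ≤ (1 - 1 / 16 ^ j) ^ (16 ^ j) := by
  obtain ⟨k, rfl⟩ := Nat.exists_eq_add_of_le' hj
  have h0 : (0 : ℝ) < 16 ^ k := by positivity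
  have h1 : (1 : ℝ) ≤ 16 ^ (k + 1) := one_le_pow₀ (by norm_num)
  have h2 : (1 : ℝ) / 16 ^ (k + 1) ≤ 1 := by rw [div_le_one (by positivity)]; exact h1
  have h3 := one_add_mul_le_pow (a := -(1 / 16 ^ (k + 1) : ℝ)) (by linarith) (8 * 16 ^ k)
  have h4 : (1 : ℝ) + ((8 * 16 ^ k : ℕ) : ℝ) * -(1 / 16 ^ (k + 1)) = 1 / 2 := by
    push_cast; field_simp; ring
  rw [h4, ← sub_eq_add_neg] at h3
  rw [show 16 ^ (k + 1) = (8 * 16 ^ k) * 2 by ring, pow_mul]
  nlinarith

lemma pow_hi (j : ℕ) : (1 - 1 / 16 ^ j : ℝ) ^ (16 ^ j) ≤ 1 / 2 := by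
  have h1 : (1 : ℝ) ≤ 16 ^ j := one_le_pow₀ (by norm_num)
  have h0 : (0 : ℝ) < 1 / 16 ^ j := by positivity
  have h2 : (1 : ℝ) / 16 ^ j ≤ 1 := by rw [div_le_one (by positivity)]; exact h1
  have h3 := one_add_mul_le_pow (a := (1 / 16 ^ j : ℝ)) (by linarith) (16 ^ j)
  have h4 : (1 : ℝ) + ((16 ^ j : ℕ) : ℝ) * (1 / 16 ^ j) = 2 := by
    push_cast; field_simp; ring
  rw [h4] at h3
  have h5 : ((1 - 1 / 16 ^ j : ℝ) * (1 + 1 / 16 ^ j)) ^ (16 ^ j) ≤ 1 :=
    pow_le_one₀ (mul_nonneg (by linarith) (by linarith)) (by nlinarith)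
  rw [mul_pow] at h5
  have h6 : (0 : ℝ) ≤ (1 - 1 / 16 ^ j : ℝ) ^ (16 ^ j) := pow_nonneg (by linarith) _
  nlinarith

lemma nat_ineq (d : ℕ) : 5 * (d + 1) + (d + 3) + 1 ≤ 16 ^ (d + 1) := by
  induction d with
  | zero => norm_num
  | succ d ih => rw [pow_succ]; omega

lemma dominate (b : ℕ → ℂ) (f : ℂ → ℂ)
    (hs : ∀ z : ℂ, ‖z‖ < 1 → HasSum (fun j => b j * z ^ (16 ^ j)) (f z))
    (hb : ∀ K : ℝ, ∀ m₀ : ℕ, ∃ m ≥ m₀, K * 32 ^ m ≤ ‖b m‖) : StronglyAnnular f := by
  intro K ρ hρ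
  obtain ⟨j₀, hj₀⟩ := ((tendsto_pow_atTop_atTop_of_one_lt (r := (16 : ℝ)) (by norm_num)
    ).eventually_gt_atTop (2 / (1 - ρ))).exists_forall_of_atTop
  set B : ℝ := ∑ i ∈ range (j₀ + 1), ‖b i‖ with hB
  have hB0 : 0 ≤ B := sum_nonneg fun _ _ => norm_nonneg _
  set K' : ℝ := 4 * (B + 1) + 32 * |K| with hK'
  have hK0 := abs_nonneg K
  obtain ⟨m, hm, hbm⟩ := hb K' (j₀ + 1)
  have hsm : ∀ i : ℕ, j₀ + 1 ≤ i → (0 : ℝ) < 1 / 16 ^ i ∧ (1 : ℝ) / 16 ^ i < (1 - ρ) / 2 ∧
      (1 : ℝ) / 16 ^ i ≤ 1 / 16 := by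
    intro i hi
    refine ⟨by positivity, ?_, ?_⟩
    · have := hj₀ i (by omega)
      rw [div_lt_iff₀ (by linarith)] at this
      rw [div_lt_div_iff₀ (by positivity) (by norm_num)]
      linarith
    · apply one_div_le_one_div_of_le (by norm_num)
      exact le_self_pow₀ (by norm_num) (by omega)
  obtain ⟨a1, a2, a3⟩ := hsm m hm
  set p : ℝ := 1 - 1 / 16 ^ m with hp
  have hp0 : 0 < p := by linarith
  have hp1 : p < 1 := by linarith
  set T : ℕ → ℝ := fun i => ‖b i‖ * p ^ (16 ^ i) / 32 ^ i with hT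
  have hT0 : ∀ i, 0 ≤ T i := fun i => by positivity
  have hTle : ∀ i, T i ≤ ‖b i‖ * p ^ (16 ^ i) := fun i =>
    div_le_self (by positivity) (one_le_pow₀ (by norm_num))
  have hTlim : Tendsto T atTop (𝓝 0) := by
    have h1 := (hs (p : ℂ) (by rw [Complex.norm_real, Real.norm_of_nonneg hp0.le]; exact hp1)
      ).summable.tendsto_atTop_zero.norm
    simp only [norm_mul, norm_pow, Complex.norm_real, Real.norm_of_nonneg hp0.le, norm_zero] at h1
    exact squeeze_zero hT0 hTle h1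
  have hTm : K' / 4 ≤ T m := by
    have h1 := pow_lo m (by omega)
    simp only [hT]
    rw [le_div_iff₀ (by positivity)]
    calc K' / 4 * 32 ^ m = K' * 32 ^ m * (1 / 4) := by ring
      _ ≤ _ := mul_le_mul hbm h1 (by norm_num) (norm_nonneg _)
  have hTm0 : 0 < T m := by linarith
  obtain ⟨N, hN⟩ := (hTlim.eventually_lt_const hTm0).exists_forall_of_atTop
  obtain ⟨j, -, hj⟩ := exists_max_image (range (N + m + 1)) T ⟨m, mem_range.2 (by omega)⟩
  have hjm : T m ≤ T j := hj m (mem_range.2 (by omega))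
  have hmax : ∀ i, T i ≤ T j := fun i => by
    by_cases h : i < N + m + 1
    · exact hj i (mem_range.2 h)
    · exact (hN i (by omega)).le.trans hjm
  have hjj : j₀ + 1 ≤ j := by
    by_contra h
    have h1 : ‖b j‖ ≤ B := single_le_sum (f := fun i => ‖b i‖) (fun _ _ => norm_nonneg _)
      (mem_range.2 (by omega))
    have h2 : ‖b j‖ * p ^ (16 ^ j) ≤ ‖b j‖ :=
      mul_le_of_le_one_right (norm_nonneg _) (pow_le_one₀ hp0.le hp1.le)
    linarith [hTle j]
  obtain ⟨c1, c2, c3⟩ := hsm j hjj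
  set s : ℝ := 1 - 1 / 16 ^ j with hsdef
  have hs0 : 0 < s := by linarith
  have hs1 : s < 1 := by linarith
  have hlo : 1 / 4 ≤ s ^ (16 ^ j) := pow_lo j (by omega)
  have hhi : s ^ (16 ^ j) ≤ 1 / 2 := pow_hi j
  refine ⟨p * s, by nlinarith, by nlinarith, fun z hz => ?_⟩
  have hz1 : ‖z‖ < 1 := by rw [hz]; nlinarith
  have hterm : ∀ i, ‖b i * z ^ (16 ^ i)‖ = T i * 32 ^ i * s ^ (16 ^ i) := by
    intro i
    simp only [hT, norm_mul, norm_pow, hz, mul_pow]
    field_simp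
  set t : ℝ := T j * 32 ^ j * s ^ (16 ^ j) with ht
  have ht0 : 0 ≤ T j * 32 ^ j := by have := hT0 j; positivity
  have ht1 : T j * 32 ^ j ≤ 4 * t := by nlinarith
  have htail : ‖f z - ∑ i ∈ range (j + 1), b i * z ^ (16 ^ i)‖ ≤ t / 8 * 2 := by
    have h1 := (hasSum_nat_add_iff' (j + 1)).2 (hs z hz1)
    refine h1.norm_le_of_bounded (hasSum_geometric_two.mul_left (t / 8)) fun d => ?_
    rw [hterm]
    have e1 : 16 ^ (d + (j + 1)) = 16 ^ j + 16 ^ j * (16 ^ (d + 1) - 1) := by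
      have := Nat.one_le_pow (d + 1) 16 (by norm_num)
      zify [this]; ring
    have e2 : s ^ (16 ^ j * (16 ^ (d + 1) - 1)) ≤ (1 / 2) ^ (5 * (d + 1) + (d + 3)) := by
      rw [pow_mul]
      refine (pow_le_pow_left₀ (by positivity) hhi _).trans ?_
      exact pow_le_pow_of_le_one (by norm_num) (by norm_num) (by have := nat_ineq d; omega)
    rw [e1, pow_add s]
    calc T (d + (j + 1)) * 32 ^ (d + (j + 1)) * (s ^ 16 ^ j * s ^ (16 ^ j * (16 ^ (d + 1) - 1)))
        ≤ T j * 32 ^ (d + (j + 1)) * (s ^ 16 ^ j * (1 / 2) ^ (5 * (d + 1) + (d + 3))) := by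
          have := hT0 j
          gcongr
          exact hmax _
      _ = t / 8 * (1 / 2) ^ d * ((32 * (1 / 2) ^ 5) ^ (d + 1)) := by
          rw [ht, mul_pow, ← pow_mul]; ring
      _ = t / 8 * (1 / 2) ^ d := by norm_num
  have hhead : ‖∑ i ∈ range j, b i * z ^ (16 ^ i)‖ ≤ t / 8 * 2 := by
    refine (norm_sum_le _ _).trans ?_
    rw [← sum_range_reflect]
    refine le_trans (sum_le_sum (g := fun d => t / 8 * (1 / 2) ^ d) fun d hd => ?_) ?_
    · rw [hterm]
      have hd' := mem_range.1 hd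
      have e1 : (32 : ℝ) ^ j = 32 ^ (j - 1 - d) * 32 * 32 ^ d := by
        rw [← pow_succ, ← pow_add]; congr 1; omega
      have e2 : (2 : ℝ) ^ d ≤ 32 ^ d := pow_le_pow_left₀ (by norm_num) (by norm_num) d
      have e3 : T (j - 1 - d) * 32 ^ (j - 1 - d) * s ^ (16 ^ (j - 1 - d))
          ≤ T j * 32 ^ (j - 1 - d) * 1 := by
        have := hT0 j
        gcongr
        · exact hmax _
        · exact pow_le_one₀ hs0.le hs1.le
      refine e3.trans ?_
      rw [one_div, inv_pow, ← div_eq_mul_inv, le_div_iff₀ (by positivity)]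
      have e4 : T j * 32 ^ (j - 1 - d) * 2 ^ d ≤ T j * 32 ^ (j - 1 - d) * 32 ^ d := by
        have := hT0 j
        gcongr
      rw [e1] at ht1
      nlinarith
    · rw [← mul_sum]
      have : 0 ≤ t := by linarith
      gcongr
      exact sum_geometric_two_le j
  have hmain : ‖b j * z ^ (16 ^ j)‖ = t := hterm j
  rw [sum_range_succ] at htail
  have h1 : b j * z ^ (16 ^ j) = f z - (f z - (∑ i ∈ range j, b i * z ^ (16 ^ i)
      + b j * z ^ (16 ^ j))) - ∑ i ∈ range j, b i * z ^ (16 ^ i) := by ring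
  have h2 : t ≤ ‖f z‖ + t / 8 * 2 + t / 8 * 2 := by
    calc t = _ := hmain.symm
      _ = _ := congrArg norm h1
      _ ≤ _ := (norm_sub_le _ _).trans (add_le_add ((norm_sub_le _ _).trans
          (add_le_add le_rfl htail)) hhead)
  have h3 : T j ≤ T j * 32 ^ j := le_mul_of_one_le_right (hT0 j) (one_le_pow₀ (by norm_num))
  linarith [le_abs_self K]

lemma cda {f : ℂ → ℂ} (hf : DifferentiableOn ℂ f (ball 0 1)) (n : ℕ) : ContDiffAt ℂ n f 0 :=
  (hf.analyticAt (ball_mem_nhds 0 one_pos)).contDiffAt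

/-- the class of an index -/
def cl (j : ℕ) : ℕ := (Nat.unpair j).1

/-- Taylor coefficient -/
noncomputable def co (f : ℂ → ℂ) (n : ℕ) : ℂ := (n.factorial : ℂ)⁻¹ * iteratedDeriv n f 0

/-- the subspace -/
noncomputable def M : Submodule ℂ (ℂ → ℂ) where
  carrier := {f | DifferentiableOn ℂ f (ball 0 1) ∧ (∀ n, (∀ j, n ≠ 16 ^ j) → co f n = 0) ∧
    ∀ j j', cl j = cl j' → co f (16 ^ j) * 64 ^ j' = co f (16 ^ j') * 64 ^ j}
  zero_mem' := ⟨differentiableOn_const 0, fun n _ => by simp [co], fun j j' _ => by simp [co]⟩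
  add_mem' := by
    rintro f g ⟨hf, hf1, hf2⟩ ⟨hg, hg1, hg2⟩
    have e : ∀ n, co (f + g) n = co f n + co g n := fun n => by
      rw [co, iteratedDeriv_add (cda hf n) (cda hg n), mul_add]; rfl
    refine ⟨hf.add hg, fun n hn => by rw [e, hf1 n hn, hg1 n hn, add_zero], fun j j' h => ?_⟩
    rw [e, e, add_mul, add_mul, hf2 j j' h, hg2 j j' h]
  smul_mem' := by
    rintro c f ⟨hf, hf1, hf2⟩
    have e : ∀ n, co (c • f) n = c * co f n := fun n => by
      rw [co, iteratedDeriv_const_smul (cda hf n), co, smul_eq_mul]; ring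
    refine ⟨hf.const_smul c, fun n hn => by rw [e, hf1 n hn, mul_zero], fun j j' h => ?_⟩
    rw [e, e, mul_assoc, mul_assoc, hf2 j j' h]

lemma co_tendsto (F : ℕ → ℂ → ℂ) (g : ℂ → ℂ) (hF : ∀ n, DifferentiableOn ℂ (F n) (ball 0 1))
    (h : TendstoLocallyUniformlyOn F g atTop (ball 0 1)) (k : ℕ) :
    Tendsto (fun n => co (F n) k) atTop (𝓝 (co g k)) := by
  have key : ∀ k, (∀ n, DifferentiableOn ℂ (iteratedDeriv k (F n)) (ball 0 1)) ∧
      TendstoLocallyUniformlyOn (fun n => iteratedDeriv k (F n)) (iteratedDeriv k g) atTop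
        (ball 0 1) := by
    intro k
    induction k with
    | zero => simpa using ⟨hF, h⟩
    | succ k ih =>
      simp only [iteratedDeriv_succ]
      exact ⟨fun n => (ih.1 n).deriv isOpen_ball,
        ih.2.deriv (Eventually.of_forall ih.1) isOpen_ball⟩
  exact ((key k).2.tendsto_at (mem_ball_self one_pos)).const_mul _

lemma of_hasSum (a : ℕ → ℂ) (f : ℂ → ℂ)
    (h : ∀ z : ℂ, ‖z‖ < 1 → HasSum (fun n => a n * z ^ n) (f z)) :
    DifferentiableOn ℂ f (ball 0 1) ∧ ∀ n, co f n = a n := by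
  have hp : HasFPowerSeriesOnBall f (FormalMultilinearSeries.ofScalars ℂ a) 0 1 := by
    refine ⟨?_, one_pos, fun {y} hy => ?_⟩
    · refine ENNReal.le_of_forall_nnreal_lt fun r hr => ?_
      apply FormalMultilinearSeries.le_radius_of_tendsto (l := 0)
      have hr1 : (r : ℝ) < 1 := by exact_mod_cast hr
      have := (h (r : ℝ) (by simpa using hr1)).summable.tendsto_atTop_zero.norm
      simpa [FormalMultilinearSeries.ofScalars_norm] using this
    · have hy1 : ‖y‖ₑ < 1 := by simpa using hy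
      have := h y (by rwa [← ofReal_norm_eq_enorm, ENNReal.ofReal_lt_one] at hy1)
      simpa [FormalMultilinearSeries.ofScalars_apply_eq, mul_comm] using this
  refine ⟨hp.differentiableOn.mono fun y hy => ?_, fun n => ?_⟩
  · have hy1 : ‖y‖ < 1 := by simpa using hy
    have : ‖y‖ₑ < 1 := by rwa [← ofReal_norm_eq_enorm, ENNReal.ofReal_lt_one]
    simpa using this
  have h1 := hp.factorial_smul (1 : ℂ) n
  rw [co, iteratedDeriv_eq_iteratedFDeriv, ← h1]
  have : (n.factorial : ℂ) ≠ 0 := by exact_mod_cast n.factorial_ne_zero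
  simp [FormalMultilinearSeries.ofScalars_apply_eq]
  field_simp

lemma inj16 : Function.Injective (fun j : ℕ => 16 ^ j) := Nat.pow_right_injective (by norm_num)

lemma hasSum_M {f : ℂ → ℂ} (hf : f ∈ M) (z : ℂ) (hz : ‖z‖ < 1) :
    HasSum (fun j => co f (16 ^ j) * z ^ (16 ^ j)) (f z) := by
  have h1 := Complex.hasSum_taylorSeries_on_ball hf.1 (z := z) (by simpa using hz)
  have h2 : HasSum (fun n => co f n * z ^ n) (f z) := by
    have e : (fun n => co f n * z ^ n)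
        = fun n : ℕ => (n.factorial : ℂ)⁻¹ • (z - 0) ^ n • iteratedDeriv n f 0 := by
      funext n
      simp only [co, smul_eq_mul, sub_zero]; ring
    rw [e]; exact h1
  refine (inj16.hasSum_iff (f := fun n => co f n * z ^ n) fun n hn => ?_).2 h2
  rw [hf.2.1 n fun j hj => hn ⟨j, hj.symm⟩, zero_mul]

/-- coefficients of the basis functions -/
noncomputable def bc (k : ℕ) : ℕ → ℂ :=
  Function.extend (fun j : ℕ => 16 ^ j) (fun j => if cl j = k then 64 ^ j else 0) 0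

lemma bc_pow (k j : ℕ) : bc k (16 ^ j) = if cl j = k then 64 ^ j else 0 := inj16.extend_apply _ _ j

lemma bc_not (k n : ℕ) (h : ∀ j, n ≠ 16 ^ j) : bc k n = 0 := by
  rw [bc, Function.extend_apply' _ _ _ (by rintro ⟨j, hj⟩; exact h j hj.symm)]; rfl

lemma bc_le (k n : ℕ) : ‖bc k n‖ ≤ (n : ℝ) ^ 2 := by
  by_cases h : ∃ j, n = 16 ^ j
  · obtain ⟨j, rfl⟩ := h
    rw [bc_pow]
    split_ifs
    · push_cast
      rw [norm_pow, ← pow_mul, mul_comm, pow_mul]
      exact pow_le_pow_left₀ (norm_nonneg _) (by norm_num) j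
    · simp
  · rw [bc_not k n (by simpa using h)]; simp

/-- the basis functions -/
noncomputable def bf (k : ℕ) (z : ℂ) : ℂ := ∑' n, bc k n * z ^ n

lemma bf_spec (k : ℕ) : DifferentiableOn ℂ (bf k) (ball 0 1) ∧ ∀ n, co (bf k) n = bc k n := by
  refine of_hasSum _ _ fun z hz => Summable.hasSum ?_
  refine Summable.of_norm_bounded (summable_pow_mul_geometric_of_norm_lt_one 2
    (r := ‖z‖) (by simpa using hz)) fun n => ?_
  rw [norm_mul, norm_pow]
  exact mul_le_mul_of_nonneg_right (bc_le k n) (by positivity)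

lemma bf_mem (k : ℕ) : bf k ∈ M := by
  refine ⟨(bf_spec k).1, fun n hn => by rw [(bf_spec k).2, bc_not k n hn], fun j j' h => ?_⟩
  rw [(bf_spec k).2, (bf_spec k).2, bc_pow, bc_pow, h]
  split_ifs
  · ring
  · simp

lemma co_zero {f : ℂ → ℂ} (h : ∀ z ∈ ball (0 : ℂ) 1, f z = 0) (n : ℕ) : co f n = 0 :=
  (of_hasSum (fun _ => 0) f fun z hz => by simpa [h z (by simpa using hz)] using hasSum_zero).2 n

lemma co_sum (s : Finset ℕ) (g : ℕ → ℂ) (n : ℕ) :
    co (∑ k ∈ s, g k • bf k) n = ∑ k ∈ s, g k * bc k n := by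
  classical
  induction s using Finset.induction_on with
  | empty => simp [co]
  | insert a s ha ih =>
    have h1 : (g a • bf a) ∈ M := M.smul_mem _ (bf_mem a)
    have h2 : (∑ k ∈ s, g k • bf k) ∈ M := M.sum_mem fun k _ => M.smul_mem _ (bf_mem k)
    rw [sum_insert ha, sum_insert ha, ← ih, ← (bf_spec a).2, co, co, co,
      iteratedDeriv_add (cda h1.1 n) (cda h2.1 n), iteratedDeriv_const_smul (cda (bf_mem a).1 n),
      smul_eq_mul]
    ring

/-- A closed infinite-dimensional subspace of `H(𝔻)` whose nonzero members are strongly annular. -/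
theorem result : ∃ M : Submodule ℂ (ℂ → ℂ),
    (∀ f ∈ M, DifferentiableOn ℂ f (ball 0 1)) ∧
    (∀ (F : ℕ → ℂ → ℂ) (g : ℂ → ℂ), (∀ n, F n ∈ M) →
      TendstoLocallyUniformlyOn F g atTop (ball 0 1) → g ∈ M) ∧
    (∃ b : ℕ → ℂ → ℂ, (∀ k, b k ∈ M) ∧
      LinearIndependent ℂ (fun k => fun z : ball (0 : ℂ) 1 => b k z)) ∧
    ∀ f ∈ M, (∃ z ∈ ball (0 : ℂ) 1, f z ≠ 0) → StronglyAnnular f := by
  refine ⟨M, fun f hf => hf.1, fun F g hF h => ?_, ⟨bf, bf_mem, ?_⟩, ?_⟩
  · have hd := fun n => (hF n).1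
    have hc := co_tendsto F g hd h
    refine ⟨h.differentiableOn (Eventually.of_forall hd) isOpen_ball, fun n hn => ?_,
      fun j j' hj => ?_⟩
    · exact tendsto_nhds_unique (hc n) (by simp [fun i => (hF i).2.1 n hn])
    · refine tendsto_nhds_unique ((hc _).mul_const _) ?_
      simp only [fun i => (hF i).2.2 j j' hj]
      exact (hc _).mul_const _
  · rw [linearIndependent_iff']
    intro s g hg i hi
    have h1 := co_zero (f := ∑ k ∈ s, g k • bf k) (fun z hz => by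
      have := congrFun hg ⟨z, hz⟩
      simpa using this) (16 ^ Nat.pair i 0)
    rw [co_sum, sum_eq_single_of_mem i hi (fun k _ hk => by
      rw [bc_pow, if_neg (by simpa [cl] using hk.symm), mul_zero]), bc_pow,
      if_pos (by simp [cl])] at h1
    simpa using h1
  · rintro f hf ⟨z, hz, hfz⟩
    obtain ⟨j, hj⟩ : ∃ j, co f (16 ^ j) ≠ 0 := by
      by_contra h
      push Not at h
      have := hasSum_M hf z (by simpa using hz)
      simp only [h, zero_mul] at this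
      exact hfz (this.unique hasSum_zero)
    refine dominate _ f (hasSum_M hf) fun K m₀ => ?_
    have hc : 0 < ‖co f (16 ^ j)‖ := norm_pos_iff.2 hj
    obtain ⟨l, hl⟩ := ((tendsto_pow_atTop_atTop_of_one_lt (r := (2 : ℝ)) (by norm_num)
      ).eventually_ge_atTop (K * 64 ^ j / ‖co f (16 ^ j)‖)).exists_forall_of_atTop
    set m := Nat.pair (cl j) (l + m₀) with hm
    have hm1 : l + m₀ ≤ m := Nat.right_le_pair _ _
    refine ⟨m, by omega, ?_⟩
    have h1 := congrArg norm (hf.2.2 j m (by simp [hm, cl]))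
    simp only [norm_mul, norm_pow, Complex.norm_ofNat] at h1
    have h2 := hl m (by omega)
    rw [div_le_iff₀ hc] at h2
    have h3 : (64 : ℝ) ^ m = 2 ^ m * 32 ^ m := by rw [← mul_pow]; norm_num
    have h4 : (0 : ℝ) < 64 ^ j := by positivity
    have h5 : (0 : ℝ) < 32 ^ m := by positivity
    refine le_of_mul_le_mul_right ?_ h4
    rw [← h1, h3]
    nlinarith

end Pool.Agent.Results.MP_fdf3ca_an.Spaceable
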